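import Pool.Agent.Helper99.DF.St

/-!
# Project DF, module EXP: expansions to all orders (helper87)
-/

set_option autoImplicit false

namespace Pool.Agent.Helper87.DF

open Pool.Agent.Helper99.DF Filter Topology

theorem hEXP (h1 : StGR) (h2 : StAE1) (h3 : StAE2) (h4 : StAE3) (h5 : StAE4) (h6 : StSOL) :
    StEXP := by
  intro S b al F Z c0 C K hD hFK
  obtain ⟨per, c0pos, ZS, hZ, hY, F1, FZ, FY, rate⟩ := hD
  set c := cc al with hc
  have hc0 : ∀ k ∈ Z, 0 ≤ c k := fun k hk => c0pos.le.trans (hZ k hk)
  have hSact : ∀ k ∈ act S, k ∈ S ∧ k - 1 ∈ S ∧ k + 1 ∈ S := fun k hk => mem_act.1 hk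
  -- the errors
  let θ : ℕ → ℕ → ℝ := fun t k => gg b al t k - F k
  have hθ : ∀ t, ∀ k ∈ S, |θ t k| ≤ C * Real.exp (-(c0 * 2 ^ t)) := rate
  -- weakening
  have weak : ∀ (M M' : ℝ) (f : ℕ → ℝ), M' ≤ M → AE K Z c M f → AE K Z c M' f :=
    fun M M' f h hf => (h5 K Z c M 0 f hf).2 M' h
  have step : ∀ n : ℕ, ∀ k ∈ S, AE K Z c (c0 * (n + 1)) (fun t => θ t k) := by
    intro n
    induction n with
    | zero =>
      intro k hk
      refine ⟨0, C, fun t => ?_⟩
      have := hθ t k hk
      simpa using this
    | succ n ih =>
      set M : ℝ := c0 * (n + 1) with hM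
      have hM0 : c0 ≤ M := by
        rw [hM]
        nlinarith [Nat.cast_nonneg (α := ℝ) n]
      have hMpos : 0 ≤ M := c0pos.le.trans hM0
      have hM1 : 0 ≤ M + c0 := by linarith
      have eM : c0 * (((n + 1 : ℕ) : ℝ) + 1) = M + c0 := by
        rw [hM]
        push_cast
        ring
      rw [eM]
      obtain ⟨A1, A2, A3, A4⟩ := h2 K Z c (M + c0) hc0 hM1
      obtain ⟨B1, B2, B3, B4⟩ := h2 K Z c M hc0 hMpos
      -- constants are available
      have hconst : ∀ a : ℝ, a ∈ K → AE K Z c (M + c0) (fun _ => a) := A3
      have hneg : ∀ f : ℕ → ℝ, AE K Z c (M + c0) f → AE K Z c (M + c0) (fun t => -f t) := by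
        intro f hf
        have := A2 (fun _ => (-1 : ℝ)) f (A3 (-1) (neg_mem (one_mem K))) hf
        simpa using this
      have hshift : ∀ k ∈ S, AE K Z c (M + c0) (fun t => θ (t + 1) k) := by
        intro k hk
        exact weak (2 * M) (M + c0) _ (by linarith) (h3 K Z c M (fun t => θ t k) (ih k hk))
      have hprod : ∀ k ∈ S, ∀ l ∈ S, AE K Z c (M + c0) (fun t => θ t k * θ t l) := by
        intro k hk l hl
        exact h4 K Z c M c0 (fun t => θ t k) (fun t => θ t l) C C c0pos hM0 (ih k hk) (ih l hl)
          (fun t => hθ t k hk) (fun t => hθ t l hl)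
      have hsq : ∀ k ∈ S, AE K Z c (M + c0) (fun t => -(θ t k ^ 2)) := by
        intro k hk
        have := hneg _ (hprod k hk k hk)
        simpa only [pow_two] using this
      have hg : ∀ k ∈ S, AE K Z c M (fun t => gg b al t k) := by
        intro k hk
        have := B1 (fun _ => F k) (fun t => θ t k) (B3 (F k) (hFK k hk)) (ih k hk)
        have e : (fun t => F k + θ t k) = fun t => gg b al t k := by
          funext t
          show F k + (gg b al t k - F k) = _
          ring
        rwa [e] at this
      -- the right hand sides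
      let R : ℕ → ℕ → ℝ := fun t k =>
        if k ∈ act S \ Z then θ (t + 1) k - θ t k ^ 2 + θ t (k - 1) * θ t (k + 1)
        else if k ∈ Z then θ (t + 1) k - θ t k ^ 2
          + Real.exp (-(c k * 2 ^ t)) * (gg b al t (k - 1) * gg b al t (k + 1))
        else θ (t + 1) k - θ t k ^ 2
      refine h6 K Z c (M + c0) hc0 hM1 S (act S \ Z) F θ R ?_ ?_ F1 hFK FY ?_ ?_ ?_
      · intro k hk
        exact (hSact k (Finset.mem_sdiff.1 hk).1).1
      · intro k hk
        exact (hSact k (Finset.mem_sdiff.1 hk).1).2
      · intro t k hk hkY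
        have hF : F k = 1 := FZ k hk hkY
        show 2 * θ t k = (if k ∈ act S \ Z then _ else _)
        rw [if_neg hkY]
        by_cases hkZ : k ∈ Z
        · rw [if_pos hkZ]
          have hr := (h1 S b al per t k hk).1 (ZS hkZ)
          show 2 * (gg b al t k - F k) = (gg b al (t + 1) k - F k) - (gg b al t k - F k) ^ 2
            + Real.exp (-(c k * 2 ^ t)) * (gg b al t (k - 1) * gg b al t (k + 1))
          rw [hr, hF, mul_comm (c k)]
          ring
        · rw [if_neg hkZ]
          have hna : k ∉ act S := fun h => hkY (Finset.mem_sdiff.2 ⟨h, hkZ⟩)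
          have hr := (h1 S b al per t k hk).2 hna
          show 2 * (gg b al t k - F k) = (gg b al (t + 1) k - F k) - (gg b al t k - F k) ^ 2
          rw [hr, hF]
          ring
      · intro t k hkY
        have hka := (Finset.mem_sdiff.1 hkY).1
        have hk := (hSact k hka).1
        have hr := (h1 S b al per t k hk).1 hka
        have hcz : cc al k = 0 := hY k hkY
        have hFY := FY k hkY
        show _ = (if k ∈ act S \ Z then _ else _)
        rw [if_pos hkY]
        show 2 * F k * (gg b al t k - F k) - F (k - 1) * (gg b al t (k + 1) - F (k + 1))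
          - F (k + 1) * (gg b al t (k - 1) - F (k - 1))
          = (gg b al (t + 1) k - F k) - (gg b al t k - F k) ^ 2
          + (gg b al t (k - 1) - F (k - 1)) * (gg b al t (k + 1) - F (k + 1))
        rw [hr, hcz]
        simp only [mul_zero, neg_zero, Real.exp_zero, one_mul]
        linear_combination (-1 : ℝ) * hFY
      · intro k hk
        by_cases hkY : k ∈ act S \ Z
        · have hka := (Finset.mem_sdiff.1 hkY).1
          have e : (fun t => R t k) = fun t => (θ (t + 1) k + -(θ t k ^ 2))
              + θ t (k - 1) * θ t (k + 1) := by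
            funext t
            show (if k ∈ act S \ Z then _ else _) = _
            rw [if_pos hkY]
            ring
          rw [e]
          exact A1 _ _ (A1 _ _ (hshift k hk) (hsq k hk))
            (hprod _ (hSact k hka).2.1 _ (hSact k hka).2.2)
        · by_cases hkZ : k ∈ Z
          · have hka := ZS hkZ
            have e : (fun t => R t k) = fun t => (θ (t + 1) k + -(θ t k ^ 2))
                + Real.exp (-(c k * 2 ^ t)) * (gg b al t (k - 1) * gg b al t (k + 1)) := by
              funext t
              show (if k ∈ act S \ Z then _ else _) = _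
              rw [if_neg hkY, if_pos hkZ]
              ring
            rw [e]
            refine A1 _ _ (A1 _ _ (hshift k hk) (hsq k hk)) ?_
            exact (h5 K Z c M c0 (fun t => gg b al t (k - 1) * gg b al t (k + 1))
              (B2 _ _ (hg _ (hSact k hka).2.1) (hg _ (hSact k hka).2.2))).1 k hkZ (hZ k hkZ)
          · have e : (fun t => R t k) = fun t => (θ (t + 1) k + -(θ t k ^ 2)) := by
              funext t
              show (if k ∈ act S \ Z then _ else _) = _
              rw [if_neg hkY, if_neg hkZ]
              ring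
            rw [e]
            exact A1 _ _ (hshift k hk) (hsq k hk)
  intro M k hk
  -- choose a large order
  obtain ⟨n, hn⟩ := exists_nat_ge (M / c0)
  have hMn : M ≤ c0 * (n + 1) := by
    have : M ≤ n * c0 := (div_le_iff₀ c0pos).1 hn
    nlinarith
  have hpos : (0 : ℝ) ≤ c0 * (n + 1) := by positivity
  obtain ⟨B1, B2, B3, B4⟩ := h2 K Z c (c0 * (n + 1)) hc0 hpos
  have := B1 (fun _ => F k) (fun t => θ t k) (B3 (F k) (hFK k hk)) (step n k hk)
  have e : (fun t => F k + θ t k) = fun t => gg b al t k := by
    funext t
    show F k + (gg b al t k - F k) = _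
    ring
  rw [e] at this
  exact weak _ M _ hMn this

end Pool.Agent.Helper87.DF
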