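import Pool.Agent.Helper99.DF.St

/-!
# Project DF, module LIN: an integer relation with a small value (helper87)
-/

set_option autoImplicit false

namespace Pool.Agent.Helper87.DF

open Pool.Agent.Helper99.DF Filter Topology

open scoped Classical in
theorem hLIN : StLIN := by
  intro K hK Z c M V hc hV ι hι Q hQ hcard
  choose p C hp using hQ
  set sv : (Z →₀ ℕ) → ℝ := fun α => ∑ k : Z, (α k : ℝ) * c k with hsv
  -- the values below `M` are in `V`
  have hsvV : ∀ α : Z →₀ ℕ, sv α < M → sv α ∈ V := by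
    intro α hα
    have e : ∑ k ∈ Z, (((fun k => if h : k ∈ Z then α ⟨k, h⟩ else 0 : ℕ → ℕ) k : ℕ) : ℝ) * c k
        = sv α := by
      rw [hsv, ← Finset.sum_coe_sort Z]
      apply Finset.sum_congr rfl
      intro k _
      simp
    have := hV (fun k => if h : k ∈ Z then α ⟨k, h⟩ else 0)
    rw [e] at this
    exact this hα
  let w : ι → ℝ → K := fun e s => ∑ α ∈ (p e).support.filter (fun α => sv α = s), (p e).coeff α
  let L : (ι → ℚ) →ₗ[ℚ] (V → K) :=
    { toFun := fun a s => ∑ e, a e • w e s
      map_add' := by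
        intro a b
        funext s
        simp only [Pi.add_apply, add_smul, Finset.sum_add_distrib]
      map_smul' := by
        intro r a
        funext s
        simp only [Pi.smul_apply, smul_eq_mul, mul_smul, Finset.smul_sum, RingHom.id_apply] }
  have hfin : Module.finrank ℚ (V → K) = V.card * Module.finrank ℚ K := by
    rw [Module.finrank_pi_fintype]
    simp
  have hlt : Module.finrank ℚ (V → K) < Module.finrank ℚ (ι → ℚ) := by
    rw [hfin, Module.finrank_fintype_fun_eq_card, mul_comm]
    exact hcard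
  have hker := LinearMap.ker_ne_bot_of_finrank_lt (f := L) hlt
  obtain ⟨a, ha, ha0⟩ := (Submodule.ne_bot_iff _).1 hker
  rw [LinearMap.mem_ker] at ha
  obtain ⟨D, hD⟩ := IsLocalization.exist_integer_multiples_of_finset (nonZeroDivisors ℤ)
    (Finset.univ.image a)
  have hD' : ∀ e, ∃ z : ℤ, (z : ℚ) = (D : ℤ) * a e := by
    intro e
    obtain ⟨z, hz⟩ := hD (a e) (Finset.mem_image_of_mem _ (Finset.mem_univ e))
    refine ⟨z, ?_⟩
    have h1 : (z : ℚ) = ((D : ℤ) : ℤ) • a e := hz
    rw [h1, zsmul_eq_mul]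
  choose z hz using hD'
  have hD0 : (D : ℤ) ≠ 0 := nonZeroDivisors.coe_ne_zero D
  refine ⟨z, ?_, ?_⟩
  · intro h
    apply ha0
    funext e
    have h1 := hz e
    rw [h] at h1
    simp only [Pi.zero_apply, Int.cast_zero] at h1 ⊢
    have h2 : ((D : ℤ) : ℚ) ≠ 0 := by exact_mod_cast hD0
    rcases mul_eq_zero.1 h1.symm with h3 | h3
    · exact absurd h3 h2
    · exact h3
  -- the relation in `ℝ`
  have hrel : ∀ s ∈ V, ∑ e, (z e : ℝ) * ((w e s : K) : ℝ) = 0 := by
    intro s hs
    have h1 : ∑ e, a e • w e s = 0 := congrFun ha ⟨s, hs⟩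
    have h2 : ((∑ e, a e • w e s : K) : ℝ) = 0 := by rw [h1]; rfl
    have h3 : ((∑ e, a e • w e s : K) : ℝ) = ∑ e, (a e : ℝ) * ((w e s : K) : ℝ) := by
      push_cast
      apply Finset.sum_congr rfl
      intro e _
      rw [Rat.smul_def]
    rw [h3] at h2
    have h4 : ∑ e, (z e : ℝ) * ((w e s : K) : ℝ)
        = ((D : ℤ) : ℝ) * ∑ e, (a e : ℝ) * ((w e s : K) : ℝ) := by
      rw [Finset.mul_sum]
      apply Finset.sum_congr rfl
      intro e _
      have : (z e : ℝ) = ((D : ℤ) : ℝ) * (a e : ℝ) := by exact_mod_cast congrArg (Rat.cast (K := ℝ)) (hz e)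
      rw [this]
      ring
    rw [h4, h2, mul_zero]
  -- value of the polynomials
  have hval : ∀ e t, MvPolynomial.aeval (fun k : Z => Real.exp (-(c k * 2 ^ t))) (p e)
      = ∑ α ∈ (p e).support, (((p e).coeff α : K) : ℝ) * Real.exp (-(sv α * 2 ^ t)) := by
    intro e t
    rw [MvPolynomial.aeval_def, MvPolynomial.eval₂_eq']
    apply Finset.sum_congr rfl
    intro α _
    have h1 : ∏ i : Z, Real.exp (-(c i * 2 ^ t)) ^ α i = Real.exp (-(sv α * 2 ^ t)) := by
      simp only [← Real.exp_nat_mul]
      rw [← Real.exp_sum]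
      congr 1
      rw [hsv]
      simp only [Finset.sum_mul]
      rw [← Finset.sum_neg_distrib]
      apply Finset.sum_congr rfl
      intro k _
      ring
    rw [h1]
    rfl
  have hzero : ∀ t : ℕ, ∑ e, (z e : ℝ) * ∑ α ∈ (p e).support.filter (fun α => sv α < M),
      (((p e).coeff α : K) : ℝ) * Real.exp (-(sv α * 2 ^ t)) = 0 := by
    intro t
    have h1 : ∀ e, ∑ α ∈ (p e).support.filter (fun α => sv α < M),
        (((p e).coeff α : K) : ℝ) * Real.exp (-(sv α * 2 ^ t))
        = ∑ s ∈ V.filter (fun s => s < M), ((w e s : K) : ℝ) * Real.exp (-(s * 2 ^ t)) := by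
      intro e
      have h2 : ∀ s, ((w e s : K) : ℝ) * Real.exp (-(s * 2 ^ t))
          = ∑ α ∈ (p e).support.filter (fun α => sv α = s),
            (((p e).coeff α : K) : ℝ) * Real.exp (-(sv α * 2 ^ t)) := by
        intro s
        have h3 : ((w e s : K) : ℝ)
            = ∑ α ∈ (p e).support.filter (fun α => sv α = s), (((p e).coeff α : K) : ℝ) := by
          show ((∑ α ∈ (p e).support.filter (fun α => sv α = s), (p e).coeff α : K) : ℝ) = _
          push_cast
          rfl
        rw [h3, Finset.sum_mul]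
        apply Finset.sum_congr rfl
        intro α hα
        rw [(Finset.mem_filter.1 hα).2]
      simp only [h2]
      rw [← Finset.sum_fiberwise_of_maps_to (s := (p e).support.filter (fun α => sv α < M))
        (t := V.filter (fun s => s < M)) (g := sv)]
      · apply Finset.sum_congr rfl
        intro s hs
        apply Finset.sum_congr _ (fun _ _ => rfl)
        ext α
        simp only [Finset.mem_filter]
        constructor
        · rintro ⟨⟨h4, _⟩, h5⟩
          exact ⟨h4, h5⟩
        · rintro ⟨h4, h5⟩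
          exact ⟨⟨h4, h5 ▸ (Finset.mem_filter.1 hs).2⟩, h5⟩
      · intro α hα
        have h4 := (Finset.mem_filter.1 hα).2
        exact Finset.mem_filter.2 ⟨hsvV α h4, h4⟩
    simp only [h1, Finset.mul_sum]
    rw [Finset.sum_comm]
    apply Finset.sum_eq_zero
    intro s hs
    have h5 := hrel s (Finset.mem_filter.1 hs).1
    calc ∑ e, (z e : ℝ) * (((w e s : K) : ℝ) * Real.exp (-(s * 2 ^ t)))
        = (∑ e, (z e : ℝ) * ((w e s : K) : ℝ)) * Real.exp (-(s * 2 ^ t)) := by
          rw [Finset.sum_mul]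
          exact Finset.sum_congr rfl fun e _ => by ring
      _ = 0 := by rw [h5, zero_mul]
  refine ⟨∑ e, |(z e : ℝ)| * (∑ α ∈ (p e).support, |(((p e).coeff α : K) : ℝ)| + |C e|), ?_⟩
  intro t
  have hsplit : ∑ e, (z e : ℝ) * Q e t
      = ∑ e, (z e : ℝ) * ((Q e t - MvPolynomial.aeval (fun k : Z => Real.exp (-(c k * 2 ^ t))) (p e))
        + ∑ α ∈ (p e).support.filter (fun α => ¬ sv α < M),
          (((p e).coeff α : K) : ℝ) * Real.exp (-(sv α * 2 ^ t))) := by
    have h1 : ∀ e, (z e : ℝ) * ((Q e t -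
        MvPolynomial.aeval (fun k : Z => Real.exp (-(c k * 2 ^ t))) (p e))
        + ∑ α ∈ (p e).support.filter (fun α => ¬ sv α < M),
          (((p e).coeff α : K) : ℝ) * Real.exp (-(sv α * 2 ^ t)))
        = (z e : ℝ) * Q e t - (z e : ℝ) * ∑ α ∈ (p e).support.filter (fun α => sv α < M),
          (((p e).coeff α : K) : ℝ) * Real.exp (-(sv α * 2 ^ t)) := by
      intro e
      rw [hval, ← Finset.sum_filter_add_sum_filter_not (p e).support (fun α => sv α < M)]
      ring
    simp only [h1, Finset.sum_sub_distrib, hzero t, sub_zero]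
  rw [hsplit, Finset.sum_mul]
  refine (Finset.abs_sum_le_sum_abs _ _).trans (Finset.sum_le_sum fun e _ => ?_)
  rw [abs_mul, mul_assoc]
  refine mul_le_mul_of_nonneg_left ?_ (abs_nonneg _)
  refine (abs_add_le _ _).trans ?_
  rw [add_mul, add_comm]
  refine add_le_add ?_ ?_
  · rw [Finset.sum_mul]
    refine (Finset.abs_sum_le_sum_abs _ _).trans ?_
    refine (Finset.sum_le_sum (g := fun α => |(((p e).coeff α : K) : ℝ)| * Real.exp (-(M * 2 ^ t)))
      fun α hα => ?_).trans ?_
    · rw [abs_mul, Real.abs_exp]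
      refine mul_le_mul_of_nonneg_left (Real.exp_le_exp.2 ?_) (abs_nonneg _)
      have h6 := (Finset.mem_filter.1 hα).2
      push Not at h6
      have h7 : (0 : ℝ) < 2 ^ t := by positivity
      nlinarith
    · exact Finset.sum_le_sum_of_subset_of_nonneg (Finset.filter_subset _ _)
        fun α _ _ => by positivity
  · refine (hp e t).trans ?_
    exact mul_le_mul_of_nonneg_right (le_abs_self _) (Real.exp_pos _).le

end Pool.Agent.Helper87.DF
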