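import Pool.Agent.Helper99.DF.St

/-!
# Project DF, module SYM: existence of the symbolic part of a certificate (helper87)
-/

set_option autoImplicit false

namespace Pool.Agent.Helper87.DF

open Pool.Agent.Helper99.DF Filter Topology

/-- exponent lists -/
noncomputable def code (n : ℕ) (e : ℕ →₀ ℕ) : List ℕ := (List.range n).map e

theorem ex_code (n : ℕ) (e : ℕ →₀ ℕ) (k : ℕ) : ex (code n e) k = if k < n then e k else 0 := by
  unfold ex code
  by_cases h : k < n
  · rw [if_pos h, List.getD_eq_getElem _ _ (by simpa using h)]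
    simp
  · rw [if_neg h, List.getD_eq_default _ _ (by simpa using h)]

theorem ex_code_le (n : ℕ) (e : ℕ →₀ ℕ) (N : ℕ) (h : ∀ k, e k ≤ N) (k : ℕ) :
    ex (code n e) k ≤ N := by
  rw [ex_code]
  split_ifs
  · exact h k
  · exact Nat.zero_le _

theorem mon_toList {R : Type} [CommRing R] (Z : Finset ℕ) (N : ℕ) (e : List ℕ) (b : ℕ → R) :
    mon Z.toList N e b
      = ∏ k ∈ Z, ((b (k - 1) * b (k + 1)) ^ (ex e k) * (b k ^ 2) ^ (N - ex e k)) := by
  unfold mon
  rw [Finset.prod_map_toList]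

theorem mon_insert {R : Type} [CommRing R] (Z : Finset ℕ) (i N : ℕ) (hi : i ∉ Z) (e : List ℕ)
    (b : ℕ → R) : mon (Z.toList ++ [i]) N e b
      = ∏ k ∈ insert i Z, ((b (k - 1) * b (k + 1)) ^ (ex e k) * (b k ^ 2) ^ (N - ex e k)) := by
  have h := mon_toList Z N e b
  unfold mon at h ⊢
  rw [List.map_append, List.prod_append, h, Finset.prod_insert hi]
  simp only [List.map_cons, List.map_nil, List.prod_cons, List.prod_nil, mul_one]
  ring

/-- the quotient of two monomials -/
theorem mon_div (Z : Finset ℕ) (N : ℕ) (e : List ℕ) (b : ℕ → ℤ)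
    (hpos : ∀ k ∈ Z, 0 < b k)
    (he : ∀ k ∈ Z, ex e k ≤ N) :
    ((mon Z.toList N e b : ℤ) : ℝ) = (∏ k ∈ Z, ((b k : ℝ) ^ 2) ^ N) *
      ∏ k ∈ Z, ((b (k - 1) : ℝ) * (b (k + 1) : ℝ) / (b k : ℝ) ^ 2) ^ (ex e k) := by
  rw [mon_toList]
  push_cast
  rw [← Finset.prod_mul_distrib]
  apply Finset.prod_congr rfl
  intro k hk
  have h1 : (0 : ℝ) < b k := by exact_mod_cast hpos k hk
  have h2 : ((b k : ℝ) ^ 2) ^ N = ((b k : ℝ) ^ 2) ^ (N - ex e k) * ((b k : ℝ) ^ 2) ^ (ex e k) := by
    rw [← pow_add, Nat.sub_add_cancel (he k hk)]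
  rw [h2, div_pow]
  have h3 : (((b k : ℝ) ^ 2) ^ (ex e k)) ≠ 0 := by positivity
  field_simp

theorem hSYM (h1 : StAN) (h2 : StBAS) (h3 : StREL) (h4 : StDOM) (h5 : StUL) : StSYM := by
  classical
  intro S b0 per
  obtain ⟨al, F, Z, c0, C, hD⟩ := h1 S _ per
  obtain ⟨J, hJZ, hind, D, hDpos, m, hm⟩ := h2 Z (cc al)
  have hrel := h3 S b0 al F Z c0 C hD J D m hJZ hDpos hm
  obtain ⟨hUZ, hUY⟩ := h5 S _ al F Z c0 C hD
  have hdom := h4 S _ al F Z c0 C hD J hJZ hind
  obtain ⟨-, c0pos, ZS, hZ, hY, F1, FZ, FY, rate⟩ := hD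
  have hrel2 : ∀ i, ∃ (N : ℕ) (P : MvPolynomial ℕ ℤ), i ∈ act S \ Z → (P ≠ 0 ∧
      (∀ e ∈ P.support, (∀ k, e k ≤ N) ∧ (∀ k, e k ≠ 0 → k ∈ insert i J)) ∧
      ∀ᶠ t in atTop, ∑ e ∈ P.support, P.coeff e *
        ∏ k ∈ insert i Z, (((T^[t] b0) (k - 1) * (T^[t] b0) (k + 1)) ^ (e k) *
          ((T^[t] b0) k ^ 2) ^ (N - e k)) = 0) := by
    intro i
    by_cases hi : i ∈ act S \ Z
    · obtain ⟨N, P, h⟩ := hrel i hi
      exact ⟨N, P, fun _ => h⟩
    · exact ⟨0, 0, fun h => absurd h hi⟩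
  choose Nf P hP using hrel2
  have hdom2 : ∀ i, ∃ γ : ℕ →₀ ℕ, i ∈ act S \ Z → (γ ∈ (P i).support ∧
      ∀ e ∈ (P i).support, (∀ k ∈ Z, e k = γ k) ∨
      Tendsto (fun t => (∏ k ∈ Z, uu (fun k => (b0 k : ℝ)) t k ^ (e k)) /
        ∏ k ∈ Z, uu (fun k => (b0 k : ℝ)) t k ^ (γ k)) atTop (𝓝 0)) := by
    intro i
    by_cases hi : i ∈ act S \ Z
    · obtain ⟨hP0, hPs, -⟩ := hP i hi
      have hiZ : i ∉ Z := (Finset.mem_sdiff.1 hi).2
      obtain ⟨γ, hγ, h⟩ := hdom (P i).support (by
        rw [Finset.nonempty_iff_ne_empty]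
        intro h
        exact hP0 (MvPolynomial.support_eq_empty.1 h)) (by
        intro e he k hk hek
        rcases Finset.mem_insert.1 ((hPs e he).2 k hek) with h | h
        · exact absurd (h ▸ hk) hiZ
        · exact h)
      exact ⟨γ, fun _ => ⟨hγ, h⟩⟩
    · exact ⟨0, fun h => absurd h hi⟩
  choose ga hga using hdom2
  -- data
  set Y := act S \ Z with hYdef
  set n := S.sup id + 1 with hn
  have hSn : ∀ k ∈ S, k < n := fun k hk => Nat.lt_succ_of_le (Finset.le_sup (f := id) hk)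
  have hactS : ∀ k ∈ act S, k ∈ S ∧ k - 1 ∈ S ∧ k + 1 ∈ S := fun k hk => mem_act.1 hk
  have hZn : ∀ k ∈ Z, k < n := fun k hk => hSn k (hactS k (ZS hk)).1
  have hYact : ∀ i ∈ Y, i ∈ act S ∧ i ∉ Z := fun i hi => Finset.mem_sdiff.1 hi
  have hYn : ∀ i ∈ Y, i < n := fun i hi => hSn i (hactS i (hYact i hi).1).1
  set N := Y.sup Nf with hN
  have hNle : ∀ i ∈ Y, Nf i ≤ N := fun i hi => Finset.le_sup hi
  let ent : ℕ → Ent := fun i =>
    (i, (code n (ga i), (P i).support.toList.map (fun e => ((P i).coeff e, code n e))))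
  let p : ℕ → ℝ := fun i => if i ∈ Y then 1 - 1 / F i else 0
  have hent : ∀ en ∈ Y.toList.map ent, ∃ i ∈ Y, en = ent i := by
    intro en hen
    obtain ⟨i, hi, rfl⟩ := List.mem_map.1 hen
    exact ⟨i, Finset.mem_toList.1 hi, rfl⟩
  have hentY : ∀ i ∈ Y, ent i ∈ Y.toList.map ent := fun i hi =>
    List.mem_map.2 ⟨i, Finset.mem_toList.2 hi, rfl⟩
  have hZL : ∀ k, (∃ z ∈ Z.toList, z = k) ↔ k ∈ Z := by
    intro k
    constructor
    · rintro ⟨z, hz, rfl⟩
      exact Finset.mem_toList.1 hz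
    · intro hk
      exact ⟨k, Finset.mem_toList.2 hk, rfl⟩
  have hpS : ∀ k ∈ S, 1 - p k = 1 / F k := by
    intro k hk
    show 1 - (if k ∈ Y then 1 - 1 / F k else 0) = 1 / F k
    split_ifs with h
    · ring
    · rw [FZ k hk h]
      norm_num
  have hsupp : ∀ i ∈ Y, ∀ e ∈ (P i).support, ∀ k, e k ≤ N := by
    intro i hi e he k
    exact (((hP i hi).2.1 e he).1 k).trans (hNle i hi)
  have hposT : ∀ t, ∀ k ∈ S, 0 < (T^[t] b0) k := by
    intro t k hk
    have h := Per.pos per (t := t) hk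
    rw [T_iter_cast] at h
    exact_mod_cast h
  have huu : ∀ t k, uu (fun k => (b0 k : ℝ)) t k
      = ((T^[t] b0) (k - 1) : ℝ) * ((T^[t] b0) (k + 1) : ℝ) / ((T^[t] b0) k : ℝ) ^ 2 := by
    intro t k
    unfold uu
    rw [T_iter_cast, T_iter_cast, T_iter_cast]
  refine ⟨Z.toList, N, Y.toList.map ent, p, ?_⟩
  refine
    { per := per
      cov := ?_
      zs := ?_
      es := ?_
      p01 := ?_
      pz := ?_
      pf := ?_
      lz := ?_
      le := ?_
      ex1 := ?_
      dom := ?_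
      lpn := ?_
      zero := ?_ }
  · intro k hk
    by_cases hkZ : k ∈ Z
    · exact Or.inl ((hZL k).2 hkZ)
    · exact Or.inr ⟨ent k, hentY k (Finset.mem_sdiff.2 ⟨hk, hkZ⟩), rfl⟩
  · intro k hk
    exact ZS (Finset.mem_toList.1 hk)
  · intro en hen
    obtain ⟨i, hi, rfl⟩ := hent en hen
    exact ⟨(hYact i hi).1, fun h => (hYact i hi).2 ((hZL i).1 h)⟩
  · intro en hen
    obtain ⟨i, hi, rfl⟩ := hent en hen
    have h := (hUY i hi).2
    show 0 < (if i ∈ Y then 1 - 1 / F i else 0) ∧ (if i ∈ Y then 1 - 1 / F i else 0) < 1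
    rw [if_pos hi]
    exact h
  · intro k hk
    have hkY : k ∉ Y := fun h => hk ⟨ent k, hentY k h, rfl⟩
    exact if_neg hkY
  · intro en hen
    obtain ⟨i, hi, rfl⟩ := hent en hen
    obtain ⟨hiS, hi1, hi2⟩ := hactS i (hYact i hi).1
    show p i * (1 - p (i - 1)) * (1 - p (i + 1)) = (1 - p i) ^ 2
    have e0 : p i = 1 - 1 / F i := if_pos hi
    rw [hpS _ hi1, hpS _ hi2, hpS _ hiS, e0]
    have a0 := F1 i hiS
    have a1 := F1 _ hi1
    have a2 := F1 _ hi2
    have b0' : F i ≠ 0 := by linarith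
    have b1 : F (i - 1) ≠ 0 := by linarith
    have b2 : F (i + 1) ≠ 0 := by linarith
    have hf := FY i hi
    have hf' : F (i - 1) * F (i + 1) = F i ^ 2 - F i := by linarith
    have b3 : F i - 1 ≠ 0 := by
      intro h
      have h6 : F i = 1 := by linarith
      rw [h6] at hf'
      have : (0 : ℝ) < F (i - 1) * F (i + 1) := by positivity
      rw [hf'] at this
      norm_num at this
    have e3 : (1 - 1 / F i) * (1 / F (i - 1)) * (1 / F (i + 1))
        = (1 - 1 / F i) / (F (i - 1) * F (i + 1)) := by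
      field_simp
    rw [e3, hf']
    field_simp
  · intro k hk
    exact hUZ k (Finset.mem_toList.1 hk)
  · intro en hen
    obtain ⟨i, hi, rfl⟩ := hent en hen
    have h := (hUY i hi).1
    have e0 : p i = 1 - 1 / F i := if_pos hi
    show Tendsto _ atTop (𝓝 (p i))
    rw [e0]
    exact h
  · intro en hen
    obtain ⟨i, hi, rfl⟩ := hent en hen
    refine ⟨fun k _ => ex_code_le n (ga i) N (hsupp i hi _ (hga i hi).1) k, ?_⟩
    intro ce hce
    obtain ⟨e, he, rfl⟩ := List.mem_map.1 hce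
    have he' := Finset.mem_toList.1 he
    exact ⟨fun k _ => ex_code_le n e N (hsupp i hi e he') k, ex_code_le n e N (hsupp i hi e he') i⟩
  · intro en hen ce hce
    obtain ⟨i, hi, rfl⟩ := hent en hen
    obtain ⟨e, he, rfl⟩ := List.mem_map.1 hce
    have he' := Finset.mem_toList.1 he
    have hg' := (hga i hi).1
    rcases (hga i hi).2 e he' with h | h
    · left
      intro k hk
      have hkZ := Finset.mem_toList.1 hk
      show ex (code n e) k = ex (code n (ga i)) k
      rw [ex_code, ex_code, if_pos (hZn k hkZ), if_pos (hZn k hkZ)]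
      exact h k hkZ
    · right
      refine h.congr fun t => ?_
      show _ = ((mon Z.toList N (code n e) (T^[t] b0) : ℤ) : ℝ)
        / ((mon Z.toList N (code n (ga i)) (T^[t] b0) : ℤ) : ℝ)
      have hpz : ∀ k ∈ Z, 0 < (T^[t] b0) k := fun k hk => hposT t k (hactS k (ZS hk)).1
      rw [mon_div Z N (code n e) (T^[t] b0) hpz
          (fun k _ => ex_code_le n e N (hsupp i hi e he') k),
        mon_div Z N (code n (ga i)) (T^[t] b0) hpz
          (fun k _ => ex_code_le n (ga i) N (hsupp i hi _ hg') k)]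
      have hc : (∏ k ∈ Z, (((T^[t] b0) k : ℝ) ^ 2) ^ N) ≠ 0 := by
        rw [Finset.prod_ne_zero_iff]
        intro k hk
        have : (0 : ℝ) < ((T^[t] b0) k : ℝ) := by exact_mod_cast hpz k hk
        positivity
      rw [mul_div_mul_left _ _ hc]
      congr 1
      · apply Finset.prod_congr rfl
        intro k hk
        rw [huu, ex_code, if_pos (hZn k hk)]
      · apply Finset.prod_congr rfl
        intro k hk
        rw [huu, ex_code, if_pos (hZn k hk)]
  · intro en hen
    obtain ⟨i, hi, rfl⟩ := hent en hen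
    have hg' := (hga i hi).1
    show Pool.Agent.Helper99.DF.lp Z.toList i (code n (ga i))
      ((P i).support.toList.map (fun e => ((P i).coeff e, code n e))) ≠ 0
    intro h0
    have hcoef := congrArg (fun q => q.coeff (ga i i)) h0
    simp only [Polynomial.coeff_zero] at hcoef
    unfold Pool.Agent.Helper99.DF.lp at hcoef
    rw [List.map_map, Finset.sum_map_toList, Polynomial.finsetSum_coeff] at hcoef
    rw [Finset.sum_eq_single_of_mem (ga i) hg'] at hcoef
    · rw [Function.comp_apply, if_pos (fun k _ => rfl), ex_code, if_pos (hYn i hi)] at hcoef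
      rw [Polynomial.coeff_C_mul, Polynomial.coeff_X_pow, if_pos rfl, mul_one] at hcoef
      exact (MvPolynomial.mem_support_iff.1 hg') hcoef
    · intro e he hne
      simp only [Function.comp]
      split_ifs with hc
      · rw [ex_code, if_pos (hYn i hi), Polynomial.coeff_C_mul, Polynomial.coeff_X_pow]
        rw [if_neg, mul_zero]
        intro hei
        apply hne
        ext k
        by_cases hk : k ∈ insert i Z
        · rcases Finset.mem_insert.1 hk with rfl | hkZ
          · exact hei.symm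
          · have := hc k (Finset.mem_toList.2 hkZ)
            rw [ex_code, ex_code, if_pos (hZn k hkZ), if_pos (hZn k hkZ)] at this
            exact this
        · have hz : ∀ e' ∈ (P i).support, e' k = 0 := by
            intro e' he'
            by_contra hne'
            apply hk
            rcases Finset.mem_insert.1 (((hP i hi).2.1 e' he').2 k hne') with h | h
            · exact Finset.mem_insert.2 (Or.inl h)
            · exact Finset.mem_insert.2 (Or.inr (hJZ h))
          rw [hz e he, hz _ hg']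
      · exact Polynomial.coeff_zero _
  · intro en hen
    obtain ⟨i, hi, rfl⟩ := hent en hen
    have hiZ := (hYact i hi).2
    filter_upwards [(hP i hi).2.2] with t ht
    show PT (Z.toList ++ [i]) N
      ((P i).support.toList.map (fun e => ((P i).coeff e, code n e))) (T^[t] b0) = 0
    unfold PT
    rw [List.map_map, Finset.sum_map_toList]
    simp only [Function.comp]
    have hterm : ∀ e ∈ (P i).support,
        (((P i).coeff e : ℤ) : ℤ) * mon (Z.toList ++ [i]) N (code n e) (T^[t] b0)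
        = (∏ k ∈ insert i Z, ((T^[t] b0) k ^ 2) ^ (N - Nf i)) * ((P i).coeff e *
          ∏ k ∈ insert i Z, (((T^[t] b0) (k - 1) * (T^[t] b0) (k + 1)) ^ (e k) *
            ((T^[t] b0) k ^ 2) ^ (Nf i - e k))) := by
      intro e he
      rw [mon_insert Z i N hiZ]
      have h6 : ∏ k ∈ insert i Z, (((T^[t] b0) (k - 1) * (T^[t] b0) (k + 1)) ^ (ex (code n e) k) *
          ((T^[t] b0) k ^ 2) ^ (N - ex (code n e) k))
          = (∏ k ∈ insert i Z, ((T^[t] b0) k ^ 2) ^ (N - Nf i)) *
          ∏ k ∈ insert i Z, (((T^[t] b0) (k - 1) * (T^[t] b0) (k + 1)) ^ (e k) *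
            ((T^[t] b0) k ^ 2) ^ (Nf i - e k)) := by
        rw [← Finset.prod_mul_distrib]
        apply Finset.prod_congr rfl
        intro k hk
        have hkn : k < n := by
          rcases Finset.mem_insert.1 hk with rfl | hkZ
          · exact hYn k hi
          · exact hZn k hkZ
        rw [ex_code, if_pos hkn]
        have h7 : e k ≤ Nf i := ((hP i hi).2.1 e he).1 k
        have h8 := hNle i hi
        have h9 : N - e k = (N - Nf i) + (Nf i - e k) := by omega
        rw [h9, pow_add]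
        ring
      rw [h6]
      ring
    have hcast : ∀ e, ((((P i).coeff e : ℤ) : ℤ)) = (P i).coeff e := fun e => rfl
    calc ∑ e ∈ (P i).support, (((P i).coeff e : ℤ) : ℤ) *
          mon (Z.toList ++ [i]) N (code n e) (T^[t] b0)
        = ∑ e ∈ (P i).support, (∏ k ∈ insert i Z, ((T^[t] b0) k ^ 2) ^ (N - Nf i)) *
          ((P i).coeff e *
          ∏ k ∈ insert i Z, (((T^[t] b0) (k - 1) * (T^[t] b0) (k + 1)) ^ (e k) *
            ((T^[t] b0) k ^ 2) ^ (Nf i - e k))) := Finset.sum_congr rfl hterm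
      _ = 0 := by rw [← Finset.mul_sum, ht, mul_zero]

end Pool.Agent.Helper87.DF
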